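import Mathlib

/-! The Fourier series of a tent function, and a discrete Klein-Gordon recursion. -/

set_option autoImplicit false

open Real

namespace Pool.Agent.H129.MB

/-- The sine coefficients of the tent with the peak at `R` (slope one on `[0, R]`). -/
noncomputable def C (R : ℝ) (m : ℕ) : ℝ :=
  2 * sin (((m : ℝ) + 1) * R) / ((π - R) * ((m : ℝ) + 1) ^ 2)

theorem hs_congr {f g : ℕ → ℝ} {a b : ℝ} (h : HasSum f a) (hf : ∀ m, g m = f m) (hb : b = a) :
    HasSum g b := by
  rw [hb, show g = f from funext hf]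
  exact h

theorem bern2 (x : ℝ) :
    (Polynomial.map (algebraMap ℚ ℝ) (Polynomial.bernoulli 2)).eval x = x ^ 2 - x + 1 / 6 := by
  rw [Polynomial.bernoulli, Finset.sum_range_succ, Finset.sum_range_succ, Finset.sum_range_succ]
  simp [Polynomial.eval_monomial, bernoulli_two, bernoulli_one]
  ring

theorem cosSeries {θ : ℝ} (h0 : 0 ≤ θ) (h1 : θ ≤ 2 * π) :
    HasSum (fun m : ℕ => cos (((m : ℝ) + 1) * θ) / ((m : ℝ) + 1) ^ 2)
      (π ^ 2 / 6 - π * θ / 2 + θ ^ 2 / 4) := by
  have hpi := Real.pi_pos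
  have h := hasSum_one_div_nat_pow_mul_cos (k := 1) one_ne_zero (x := θ / (2 * π))
    ⟨by positivity, by rw [div_le_one (by positivity)]; exact h1⟩
  rw [show 2 * 1 = 2 from rfl, bern2] at h
  have h2 := (hasSum_nat_add_iff' 1).2 h
  have e1 : (fun m : ℕ => cos (((m : ℝ) + 1) * θ) / ((m : ℝ) + 1) ^ 2) =
      (fun n : ℕ => 1 / ((n + 1 : ℕ) : ℝ) ^ 2 * cos (2 * π * ((n + 1 : ℕ) : ℝ) * (θ / (2 * π)))) := by
    funext m
    push_cast
    rw [show 2 * π * ((m : ℝ) + 1) * (θ / (2 * π)) = ((m : ℝ) + 1) * θ by field_simp]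
    ring
  rw [e1]
  have e2 : π ^ 2 / 6 - π * θ / 2 + θ ^ 2 / 4 =
      (-1 : ℝ) ^ (1 + 1) * (2 * π) ^ 2 / 2 / ((Nat.factorial 2 : ℕ) : ℝ) *
        ((θ / (2 * π)) ^ 2 - θ / (2 * π) + 1 / 6) -
      ∑ i ∈ Finset.range 1, 1 / ((i : ℕ) : ℝ) ^ 2 * cos (2 * π * (i : ℝ) * (θ / (2 * π))) := by
    simp only [Finset.range_one, Finset.sum_singleton, Nat.cast_zero]
    norm_num [Nat.factorial]
    field_simp
    ring
  rw [e2]
  exact h2

/-- `∑ C_m sin ((m+1) x) = x` for `0 ≤ x ≤ R`. -/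
theorem tent_nonneg {R x : ℝ} (hR : R < π) (h0 : 0 ≤ x) (h1 : x ≤ R) :
    HasSum (fun m : ℕ => C R m * sin (((m : ℝ) + 1) * x)) x := by
  have hpi := Real.pi_pos
  have h2 := (cosSeries (θ := R - x) (by linarith) (by linarith)).sub
    (cosSeries (θ := R + x) (by linarith) (by linarith))
  have h3 := h2.mul_left (1 / (π - R))
  have hne : π - R ≠ 0 := by linarith
  refine hs_congr h3 (fun m => ?_) ?_
  · rw [C, show ((m : ℝ) + 1) * (R - x) = ((m : ℝ) + 1) * R - ((m : ℝ) + 1) * x by ring,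
      show ((m : ℝ) + 1) * (R + x) = ((m : ℝ) + 1) * R + ((m : ℝ) + 1) * x by ring, cos_sub, cos_add]
    field_simp
    ring
  · field_simp
    ring

theorem tent {R x : ℝ} (hR : R < π) (h : |x| ≤ R) :
    HasSum (fun m : ℕ => C R m * sin (((m : ℝ) + 1) * x)) x := by
  rcases le_total 0 x with h0 | h0
  · exact tent_nonneg hR h0 (by rwa [abs_of_nonneg h0] at h)
  · have := (tent_nonneg (R := R) (x := -x) hR (by linarith) (by rwa [abs_of_nonpos h0] at h)).neg
    simpa using this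

theorem tent_cos {R x τ : ℝ} (hR : R < π) (h : |x| + |τ| ≤ R) :
    HasSum (fun m : ℕ => C R m * sin (((m : ℝ) + 1) * x) * cos (((m : ℝ) + 1) * τ)) x := by
  have h1 := tent (R := R) (x := x + τ) hR (by linarith [abs_add_le x τ])
  have h2 := tent (R := R) (x := x - τ) hR (by linarith [abs_sub x τ])
  have h3 := (h1.add h2).mul_left (1 / 2)
  refine hs_congr h3 (fun m => ?_) ?_
  · rw [show ((m : ℝ) + 1) * (x + τ) = ((m : ℝ) + 1) * x + ((m : ℝ) + 1) * τ by ring,
      show ((m : ℝ) + 1) * (x - τ) = ((m : ℝ) + 1) * x - ((m : ℝ) + 1) * τ by ring, sin_add, sin_sub]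
    ring
  · ring

theorem C_bound {R : ℝ} (hR : R < π) (m : ℕ) : |C R m| ≤ 2 / (π - R) * (1 / ((m : ℝ) + 1) ^ 2) := by
  have h : 0 < π - R := by linarith
  rw [C, abs_div, abs_mul, abs_of_pos (show (0 : ℝ) < 2 by norm_num),
    abs_of_pos (show 0 < (π - R) * ((m : ℝ) + 1) ^ 2 by positivity), div_mul_div_comm, mul_one]
  gcongr
  have := abs_sin_le_one (((m : ℝ) + 1) * R)
  linarith

theorem summable_inv_sq : Summable (fun m : ℕ => 1 / ((m : ℝ) + 1) ^ 2) := by
  have := (summable_nat_add_iff 1).2 (Real.summable_one_div_nat_pow (p := 2).2 (by norm_num))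
  simpa using this

theorem summable_C {R : ℝ} (hR : R < π) : Summable (fun m => |C R m|) :=
  Summable.of_nonneg_of_le (fun _ => abs_nonneg _) (C_bound hR) (summable_inv_sq.mul_left _)

/-- discrete Klein-Gordon equation -/
theorem discrete {R x δ η : ℝ} (hR : R < π) (hδ : 0 ≤ δ) (θ : ℕ → ℝ)
    (hθ : ∀ m : ℕ, cos (θ m) = cos η * cos (((m : ℝ) + 1) * δ)) (j : ℕ) :
    ∀ i : ℤ, |x| + (|(i : ℝ)| + j) * δ ≤ R →
    HasSum (fun m : ℕ => C R m * sin (((m : ℝ) + 1) * x) *
      (cos (((m : ℝ) + 1) * (i * δ)) * cos (j * θ m))) (x * cos (j * η)) := by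
  induction j using Nat.strong_induction_on with
  | _ j ih =>
    intro i hi
    match j, ih, hi with
    | 0, _, hi =>
      have h := tent_cos (R := R) (x := x) (τ := i * δ) hR (by
        rw [abs_mul, abs_of_nonneg hδ]
        simpa using hi)
      simpa using h
    | 1, _, hi =>
      have hb : ∀ e : ℝ, |e| = 1 → |x| + |((i : ℝ) + e) * δ| ≤ R := fun e he => by
        rw [abs_mul, abs_of_nonneg hδ]
        refine le_trans ?_ hi
        push_cast
        gcongr
        rw [← he]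
        exact abs_add_le _ _
      have h1 := tent_cos (R := R) (x := x) (τ := ((i : ℝ) + 1) * δ) hR (hb 1 (by simp))
      have h2 := tent_cos (R := R) (x := x) (τ := ((i : ℝ) + (-1)) * δ) hR (hb (-1) (by simp))
      have h3 := (h1.add h2).mul_left (cos η / 2)
      refine hs_congr h3 (fun m => ?_) ?_
      · push_cast
        rw [one_mul, hθ m, show ((m : ℝ) + 1) * (((i : ℝ) + 1) * δ) =
          ((m : ℝ) + 1) * (i * δ) + ((m : ℝ) + 1) * δ by ring,
          show ((m : ℝ) + 1) * (((i : ℝ) + (-1)) * δ) =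
          ((m : ℝ) + 1) * (i * δ) - ((m : ℝ) + 1) * δ by ring, cos_add, cos_sub]
        ring
      · push_cast
        rw [one_mul]
        ring
    | (k + 2), ih, hi =>
      have hb : ∀ e : ℤ, |(e : ℝ)| = 1 → |x| + (|((i + e : ℤ) : ℝ)| + (k + 1 : ℕ)) * δ ≤ R :=
        fun e he => by
        refine le_trans ?_ hi
        push_cast
        have : |(i : ℝ) + e| ≤ |(i : ℝ)| + 1 := by
          rw [← he]
          exact abs_add_le _ _
        nlinarith
      have h1 := ih (k + 1) (by omega) (i + 1) (hb 1 (by simp))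
      have h2 := ih (k + 1) (by omega) (i + (-1)) (hb (-1) (by simp))
      have h0 := ih k (by omega) i (by
        refine le_trans ?_ hi
        push_cast
        nlinarith)
      have h3 := ((h1.add h2).mul_left (cos η)).sub h0
      refine hs_congr h3 (fun m => ?_) ?_
      · push_cast
        rw [show ((m : ℝ) + 1) * (((i : ℝ) + 1) * δ) =
          ((m : ℝ) + 1) * (i * δ) + ((m : ℝ) + 1) * δ by ring,
          show ((m : ℝ) + 1) * (((i : ℝ) + (-1)) * δ) =
          ((m : ℝ) + 1) * (i * δ) - ((m : ℝ) + 1) * δ by ring, cos_add (((m : ℝ) + 1) * (i * δ)),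
          cos_sub (((m : ℝ) + 1) * (i * δ)),
          show ((k : ℝ) + 2) * θ m = ((k : ℝ) + 1) * θ m + θ m by ring,
          show (k : ℝ) * θ m = ((k : ℝ) + 1) * θ m - θ m by ring, cos_add, cos_sub, hθ m]
        ring
      · push_cast
        rw [show ((k : ℝ) + 2) * η = ((k : ℝ) + 1) * η + η by ring,
          show (k : ℝ) * η = ((k : ℝ) + 1) * η - η by ring, cos_add, cos_sub]
        ring

end Pool.Agent.H129.MB
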