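import Mathlib
import Pool.Agent.H129.MB.Base

/-! The Klein-Gordon equation with the tent as initial value. -/

set_option autoImplicit false

open Real Filter Topology Asymptotics

namespace Pool.Agent.H129.MB

theorem lin_lim {f : ℝ → ℝ} {f' L : ℝ} (hf : HasDerivAt f f' 0) (h0 : f 0 = 0) {y : ℕ → ℝ}
    (hy : Tendsto y atTop (𝓝 0)) (hL : Tendsto (fun K : ℕ => (K : ℝ) * y K) atTop (𝓝 L)) :
    Tendsto (fun K : ℕ => (K : ℝ) * f (y K)) atTop (𝓝 (f' * L)) := by
  have h1 : (fun h => f h - h * f') =o[𝓝 0] fun h : ℝ => h := by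
    simpa [h0] using hasDerivAt_iff_isLittleO_nhds_zero.1 hf
  have h2 : (fun K => f (y K) - y K * f') =o[atTop] (fun K => y K) := h1.comp_tendsto hy
  have h3 : (fun K : ℕ => (K : ℝ) * (f (y K) - y K * f')) =o[atTop] (fun K : ℕ => (K : ℝ) * y K) :=
    (isBigO_refl _ _).mul_isLittleO h2
  have h4 : (fun K : ℕ => (K : ℝ) * (f (y K) - y K * f')) =o[atTop] (fun _ : ℕ => (1 : ℝ)) :=
    h3.trans_isBigO (hL.isBigO_one ℝ)
  have h5 := (isLittleO_one_iff ℝ).1 h4
  have h6 := h5.add (hL.const_mul f')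
  rw [zero_add] at h6
  refine h6.congr (fun K => ?_)
  ring

theorem div_lim (a : ℝ) : Tendsto (fun K : ℕ => a / (K : ℝ)) atTop (𝓝 0) :=
  tendsto_const_div_atTop_nhds_zero_nat a

theorem mul_div_lim (a : ℝ) : Tendsto (fun K : ℕ => (K : ℝ) * (a / (K : ℝ))) atTop (𝓝 a) := by
  refine tendsto_const_nhds.congr' ?_
  filter_upwards [eventually_gt_atTop 0] with K hK
  have : (K : ℝ) ≠ 0 := by positivity
  field_simp

theorem sin_lim (a : ℝ) : Tendsto (fun K : ℕ => (K : ℝ) * sin (a / K)) atTop (𝓝 a) := by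
  have h := lin_lim (f := sin) (f' := 1) (by simpa using hasDerivAt_sin 0) sin_zero (div_lim a)
    (mul_div_lim a)
  simpa using h

theorem one_sub (A B : ℝ) : (1 - cos A * cos B) / 2 = sin (A / 2) ^ 2 + cos A * sin (B / 2) ^ 2 := by
  have h1 : cos A = 1 - 2 * sin (A / 2) ^ 2 := by
    rw [show A = 2 * (A / 2) by ring, cos_two_mul, cos_sq']
    ring_nf
  have h2 : cos B = 1 - 2 * sin (B / 2) ^ 2 := by
    rw [show B = 2 * (B / 2) by ring, cos_two_mul, cos_sq']
    ring_nf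
  rw [h2]
  nlinarith [h1]

/-- the angle with cosine `cos A cos B` -/
noncomputable def th (A B : ℝ) : ℝ := 2 * arcsin (√((1 - cos A * cos B) / 2))

theorem cos_th (A B : ℝ) : cos (th A B) = cos A * cos B := by
  have hA : |cos A * cos B| ≤ 1 := by
    rw [abs_mul]
    exact mul_le_one₀ (abs_cos_le_one _) (abs_nonneg _) (abs_cos_le_one _)
  have h := abs_le.1 hA
  have hy : 0 ≤ (1 - cos A * cos B) / 2 := by linarith
  rw [th, cos_two_mul, cos_sq', sin_arcsin (by linarith [sqrt_nonneg ((1 - cos A * cos B) / 2)])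
    (by rw [sqrt_le_one]; linarith), sq_sqrt hy]
  ring

theorem th_lim (a b : ℝ) :
    Tendsto (fun K : ℕ => cos (K * th (a / K) (b / K))) atTop (𝓝 (cos √(a ^ 2 + b ^ 2))) := by
  have hc : Tendsto (fun K : ℕ => cos (a / (K : ℝ))) atTop (𝓝 1) := by
    have := (continuous_cos.tendsto 0).comp (div_lim a)
    rw [cos_zero] at this
    exact this
  have hs : ∀ a : ℝ, Tendsto (fun K : ℕ => (K : ℝ) * sin (a / K / 2)) atTop (𝓝 (a / 2)) := fun a => by
    have := sin_lim (a / 2)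
    refine this.congr (fun K => ?_)
    rw [div_right_comm]
  have h1 : Tendsto (fun K : ℕ => ((K : ℝ) * sin (a / K / 2)) ^ 2 +
      cos (a / (K : ℝ)) * ((K : ℝ) * sin (b / K / 2)) ^ 2) atTop
      (𝓝 ((a / 2) ^ 2 + 1 * (b / 2) ^ 2)) := ((hs a).pow 2).add (hc.mul ((hs b).pow 2))
  have h2 : Tendsto (fun K : ℕ => (K : ℝ) * √((1 - cos (a / K) * cos (b / K)) / 2)) atTop
      (𝓝 (√((a / 2) ^ 2 + 1 * (b / 2) ^ 2))) := by
    refine ((continuous_sqrt.tendsto _).comp h1).congr (fun K => ?_)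
    have hK : (0 : ℝ) ≤ K := by positivity
    rw [Function.comp_apply, one_sub]
    rw [show ((K : ℝ) * sin (a / K / 2)) ^ 2 + cos (a / (K : ℝ)) * ((K : ℝ) * sin (b / K / 2)) ^ 2 =
      (K : ℝ) ^ 2 * (sin (a / K / 2) ^ 2 + cos (a / K) * sin (b / K / 2) ^ 2) by ring,
      sqrt_mul (by positivity), sqrt_sq hK]
  have hc' : Tendsto (fun K : ℕ => √((1 - cos (a / (K : ℝ)) * cos (b / K)) / 2)) atTop (𝓝 0) := by
    have hcb : Tendsto (fun K : ℕ => cos (b / (K : ℝ))) atTop (𝓝 1) := by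
      have := (continuous_cos.tendsto 0).comp (div_lim b)
      rw [cos_zero] at this
      exact this
    have h := (continuous_sqrt.tendsto _).comp
      (((tendsto_const_nhds (x := (1 : ℝ))).sub (hc.mul hcb)).div_const 2)
    rw [mul_one, sub_self, zero_div, sqrt_zero] at h
    exact h
  have h3 := lin_lim (f := arcsin) (f' := 1)
    (by simpa using hasDerivAt_arcsin (x := 0) (by norm_num) (by norm_num)) arcsin_zero hc' h2
  have h4 := (h3.const_mul 2)
  have e : 2 * (1 * √((a / 2) ^ 2 + 1 * (b / 2) ^ 2)) = √(a ^ 2 + b ^ 2) := by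
    rw [show (a / 2) ^ 2 + 1 * (b / 2) ^ 2 = (a ^ 2 + b ^ 2) / 2 ^ 2 by ring,
      sqrt_div (by positivity), sqrt_sq (by norm_num)]
    ring
  rw [e] at h4
  refine ((continuous_cos.tendsto _).comp h4).congr (fun K => ?_)
  rw [Function.comp_apply, th]
  ring_nf

theorem kg_nonneg {R x σ : ℝ} (N : ℝ) (hR : R < π) (hσ : 0 ≤ σ) (h : |x| + σ ≤ R) :
    HasSum (fun m : ℕ => C R m * sin (((m : ℝ) + 1) * x) * cos (√(((m : ℝ) + 1) ^ 2 + N ^ 2) * σ))
      (x * cos (N * σ)) := by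
  have hb : ∀ (m : ℕ) (c : ℝ), ‖C R m * sin (((m : ℝ) + 1) * x) * cos c‖ ≤ |C R m| := fun m c => by
    rw [norm_mul, norm_mul, Real.norm_eq_abs, Real.norm_eq_abs, Real.norm_eq_abs]
    have h1 := abs_sin_le_one (((m : ℝ) + 1) * x)
    have h2 := abs_cos_le_one c
    calc |C R m| * |sin (((m : ℝ) + 1) * x)| * |cos c| ≤ |C R m| * 1 * 1 := by gcongr
      _ = |C R m| := by ring
  have hsum : Summable (fun m : ℕ => C R m * sin (((m : ℝ) + 1) * x) *
      cos (√(((m : ℝ) + 1) ^ 2 + N ^ 2) * σ)) :=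
    Summable.of_norm_bounded (summable_C hR) (fun m => hb m _)
  have hT := tendsto_tsum_of_dominated_convergence (𝓕 := atTop)
    (f := fun (K : ℕ) (m : ℕ) => C R m * sin (((m : ℝ) + 1) * x) *
      cos (K * th (N * σ / K) ((((m : ℝ) + 1) * σ) / K)))
    (g := fun m : ℕ => C R m * sin (((m : ℝ) + 1) * x) * cos (√(((m : ℝ) + 1) ^ 2 + N ^ 2) * σ))
    (summable_C hR) (fun m => by
      have h1 := (th_lim (N * σ) (((m : ℝ) + 1) * σ)).const_mul (C R m * sin (((m : ℝ) + 1) * x))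
      have e : √((N * σ) ^ 2 + (((m : ℝ) + 1) * σ) ^ 2) = √(((m : ℝ) + 1) ^ 2 + N ^ 2) * σ := by
        rw [show (N * σ) ^ 2 + (((m : ℝ) + 1) * σ) ^ 2 = (((m : ℝ) + 1) ^ 2 + N ^ 2) * σ ^ 2 by ring,
          sqrt_mul (by positivity), sqrt_sq hσ]
      rw [e] at h1
      exact h1) (Eventually.of_forall fun K m => hb m _)
  have hconst : ∀ᶠ K : ℕ in atTop, (∑' m : ℕ, C R m * sin (((m : ℝ) + 1) * x) *
      cos (K * th (N * σ / K) ((((m : ℝ) + 1) * σ) / K))) = x * cos (N * σ) := by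
    filter_upwards [eventually_gt_atTop 0] with K hK
    have hK' : (K : ℝ) ≠ 0 := by positivity
    have hd := discrete (R := R) (x := x) (δ := σ / K) (η := N * σ / K) hR (by positivity)
      (fun m => th (N * σ / K) ((((m : ℝ) + 1) * σ) / K))
      (fun m => by rw [cos_th, mul_div_assoc ((m : ℝ) + 1)]) K 0 (by
        rw [Int.cast_zero, abs_zero, zero_add, mul_div_cancel₀ _ hK']
        exact h)
    have e : (K : ℝ) * (N * σ / K) = N * σ := by field_simp
    rw [e] at hd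
    rw [← hd.tsum_eq]
    congr 1
    funext m
    simp
  have hlim := tendsto_nhds_unique (hT.congr' hconst) tendsto_const_nhds
  rw [← hlim]
  exact hsum.hasSum

/-- The solution of the Klein-Gordon equation of mass `N` with initial value the tent. -/
theorem kg {R x σ : ℝ} (N : ℝ) (hR : R < π) (h : |x| + |σ| ≤ R) :
    HasSum (fun m : ℕ => C R m * sin (((m : ℝ) + 1) * x) * cos (√(((m : ℝ) + 1) ^ 2 + N ^ 2) * σ))
      (x * cos (N * σ)) := by
  have h1 := kg_nonneg (R := R) (x := x) N hR (abs_nonneg σ) h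
  refine hs_congr h1 (fun m => ?_) ?_
  · rcases abs_choice σ with e | e <;> rw [e]
    rw [mul_neg, cos_neg]
  · rcases abs_choice σ with e | e <;> rw [e]
    rw [mul_neg, cos_neg]

end Pool.Agent.H129.MB
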