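import Mathlib
import Pool.Agent.H129.MB.Limit

/-! Orthogonality of the sines, integrals of the double series. -/

set_option autoImplicit false

open Real Filter Topology MeasureTheory

namespace Pool.Agent.H129.MB

theorem int_cos {l : ℝ} (hl : 0 < l) (j : ℤ) :
    ∫ x in (0 : ℝ)..(2 * l), cos ((j : ℝ) * (π / (2 * l)) * x) = if j = 0 then 2 * l else 0 := by
  split_ifs with h
  · subst h
    simp
  · have hpi := Real.pi_pos
    have hj : (j : ℝ) ≠ 0 := by exact_mod_cast h
    have hc : (j : ℝ) * (π / (2 * l)) ≠ 0 := mul_ne_zero hj (by positivity)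
    rw [intervalIntegral.integral_comp_mul_left (fun x => cos x) hc, integral_cos]
    rw [show (j : ℝ) * (π / (2 * l)) * (2 * l) = j * π by field_simp, sin_int_mul_pi]
    simp

theorem int_sin_sin {l : ℝ} (hl : 0 < l) (k m : ℕ) :
    ∫ x in Set.Ioo (0 : ℝ) (2 * l), sin (((k : ℝ) + 1) * (π / (2 * l)) * x) *
      sin (((m : ℝ) + 1) * (π / (2 * l)) * x) = if k = m then l else 0 := by
  rw [← integral_Ioc_eq_integral_Ioo, ← intervalIntegral.integral_of_le (by positivity)]
  have e : ∀ x : ℝ, sin (((k : ℝ) + 1) * (π / (2 * l)) * x) * sin (((m : ℝ) + 1) * (π / (2 * l)) * x) =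
      (1 / 2) * cos ((((k : ℤ) - (m : ℤ) : ℤ) : ℝ) * (π / (2 * l)) * x) -
      (1 / 2) * cos ((((k : ℤ) + (m : ℤ) + 2 : ℤ) : ℝ) * (π / (2 * l)) * x) := fun x => by
    push_cast
    rw [show ((k : ℝ) - m) * (π / (2 * l)) * x =
      ((k : ℝ) + 1) * (π / (2 * l)) * x - ((m : ℝ) + 1) * (π / (2 * l)) * x by ring,
      show ((k : ℝ) + m + 2) * (π / (2 * l)) * x =
      ((k : ℝ) + 1) * (π / (2 * l)) * x + ((m : ℝ) + 1) * (π / (2 * l)) * x by ring, cos_sub, cos_add]
    ring
  simp_rw [e]
  rw [intervalIntegral.integral_sub (by apply Continuous.intervalIntegrable; fun_prop)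
    (by apply Continuous.intervalIntegrable; fun_prop),
    intervalIntegral.integral_const_mul, intervalIntegral.integral_const_mul, int_cos hl, int_cos hl]
  have h2 : ¬ ((k : ℤ) + (m : ℤ) + 2 = 0) := by positivity
  rw [if_neg h2]
  by_cases h : k = m
  · subst h
    simp
  · have h3 : ¬ ((k : ℤ) - (m : ℤ) = 0) := by
      intro h4
      apply h
      omega
    rw [if_neg h3, if_neg h]
    simp

end Pool.Agent.H129.MB
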