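import Mathlib
import Pool.Agent.H129.MB.Orth

/-! The solution of the wave equation on the square with the initial value a product of tents. -/

set_option autoImplicit false

open Real Filter Topology MeasureTheory

namespace Pool.Agent.H129.MB

/-- the terms of the double series -/
noncomputable def term (l R s : ℝ) (p : ℕ × ℕ) (x : ℝ × ℝ) : ℝ :=
  C R p.1 * C R p.2 * cos (√(((p.1 : ℝ) + 1) ^ 2 + ((p.2 : ℝ) + 1) ^ 2) * (π / (2 * l) * s)) *
    (sin (((p.1 : ℝ) + 1) * (π / (2 * l)) * x.1) * sin (((p.2 : ℝ) + 1) * (π / (2 * l)) * x.2))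

/-- the solution (up to the factor `(2 l / π)²`) -/
noncomputable def U (l R s : ℝ) (x : ℝ × ℝ) : ℝ := ∑' p : ℕ × ℕ, term l R s p x

theorem term_bound (l R s : ℝ) (p : ℕ × ℕ) (x : ℝ × ℝ) :
    ‖term l R s p x‖ ≤ |C R p.1| * |C R p.2| := by
  rw [term, norm_mul, norm_mul, norm_mul, norm_mul, Real.norm_eq_abs, Real.norm_eq_abs,
    Real.norm_eq_abs, Real.norm_eq_abs, Real.norm_eq_abs]
  have h1 := abs_cos_le_one (√(((p.1 : ℝ) + 1) ^ 2 + ((p.2 : ℝ) + 1) ^ 2) * (π / (2 * l) * s))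
  have h2 := abs_sin_le_one (((p.1 : ℝ) + 1) * (π / (2 * l)) * x.1)
  have h3 := abs_sin_le_one (((p.2 : ℝ) + 1) * (π / (2 * l)) * x.2)
  calc _ ≤ |C R p.1| * |C R p.2| * 1 * (1 * 1) := by gcongr
    _ = |C R p.1| * |C R p.2| := by ring

theorem summable_CC {R : ℝ} (hR : R < π) : Summable (fun p : ℕ × ℕ => |C R p.1| * |C R p.2|) :=
  Summable.mul_of_nonneg (summable_C hR) (summable_C hR) (fun _ => abs_nonneg _)
    (fun _ => abs_nonneg _)

theorem summable_term {R : ℝ} (hR : R < π) (l s : ℝ) (x : ℝ × ℝ) :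
    Summable (fun p => term l R s p x) :=
  Summable.of_norm_bounded (summable_CC hR) (fun p => term_bound l R s p x)

theorem continuous_U {R : ℝ} (hR : R < π) (l : ℝ) :
    Continuous (fun q : ℝ × (ℝ × ℝ) => U l R q.1 q.2) := by
  refine continuous_tsum (fun p => ?_) (summable_CC hR) (fun p q => term_bound l R q.1 p q.2)
  unfold term
  fun_prop

theorem continuous_U_comp {X : Type*} [TopologicalSpace X] {R : ℝ} (hR : R < π) (l : ℝ)
    {s : X → ℝ} {x : X → ℝ × ℝ} (hs : Continuous s) (hx : Continuous x) :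
    Continuous (fun q => U l R (s q) (x q)) := by
  refine continuous_tsum (fun p => ?_) (summable_CC hR) (fun p q => term_bound l R (s q) p (x q))
  unfold term
  fun_prop

theorem U_bound {R : ℝ} (hR : R < π) (l s : ℝ) (x : ℝ × ℝ) :
    ‖U l R s x‖ ≤ ∑' p : ℕ × ℕ, |C R p.1| * |C R p.2| :=
  tsum_of_norm_bounded (summable_CC hR).hasSum (fun p => term_bound l R s p x)

theorem U_eq {l R s : ℝ} {x : ℝ × ℝ} (hR : R < π) (h1 : |π / (2 * l) * x.1| + |π / (2 * l) * s| ≤ R)
    (h2 : |π / (2 * l) * x.2| + |π / (2 * l) * s| ≤ R) :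
    U l R s x = (π / (2 * l)) ^ 2 * (x.1 * x.2) := by
  have hs := (summable_term hR l s x).hasSum
  have hf : ∀ i : ℕ, HasSum (fun j : ℕ => term l R s (i, j) x)
      (C R i * sin (((i : ℝ) + 1) * (π / (2 * l) * x.1)) * (π / (2 * l) * x.2 *
        cos (((i : ℝ) + 1) * (π / (2 * l) * s)))) := fun i => by
    have h := (kg (R := R) (x := π / (2 * l) * x.2) (σ := π / (2 * l) * s) ((i : ℝ) + 1) hR h2).mul_left
      (C R i * sin (((i : ℝ) + 1) * (π / (2 * l) * x.1)))
    refine hs_congr h (fun m => ?_) rfl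
    rw [term]
    simp only
    rw [add_comm (((i : ℝ) + 1) ^ 2), mul_assoc ((i : ℝ) + 1), mul_assoc ((m : ℝ) + 1)]
    ring
  have h3 := hs.prod_fiberwise hf
  have h4 := (tent_cos (R := R) (x := π / (2 * l) * x.1) (τ := π / (2 * l) * s) hR h1).mul_left
    (π / (2 * l) * x.2)
  have h5 := hs_congr h4 (g := fun i : ℕ => C R i * sin (((i : ℝ) + 1) * (π / (2 * l) * x.1)) *
    (π / (2 * l) * x.2 * cos (((i : ℝ) + 1) * (π / (2 * l) * s)))) (fun m => by ring) rfl
  rw [U, h3.unique h5]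
  ring

theorem int_U {l R : ℝ} (hl : 0 < l) (hR : R < π) (s : ℝ) (m n : ℕ) :
    ∫ x in Set.Ioo (0 : ℝ) (2 * l) ×ˢ Set.Ioo (0 : ℝ) (2 * l),
      U l R s x * (sin (((m : ℝ) + 1) * (π / (2 * l)) * x.1) *
        sin (((n : ℝ) + 1) * (π / (2 * l)) * x.2)) =
      l ^ 2 * (C R m * C R n *
        cos (√(((m : ℝ) + 1) ^ 2 + ((n : ℝ) + 1) ^ 2) * (π / (2 * l) * s))) := by
  set μ := (volume : Measure (ℝ × ℝ)).restrict
    (Set.Ioo (0 : ℝ) (2 * l) ×ˢ Set.Ioo (0 : ℝ) (2 * l)) with hμ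
  have hfin : IsFiniteMeasure μ := by
    constructor
    rw [hμ, Measure.restrict_apply_univ, Measure.volume_eq_prod, Measure.prod_prod]
    simp [ENNReal.mul_lt_top]
  set F : ℕ × ℕ → ℝ × ℝ → ℝ := fun p x => term l R s p x *
    (sin (((m : ℝ) + 1) * (π / (2 * l)) * x.1) * sin (((n : ℝ) + 1) * (π / (2 * l)) * x.2)) with hF
  have hb : ∀ p x, ‖F p x‖ ≤ |C R p.1| * |C R p.2| := fun p x => by
    have h1 := term_bound l R s p x
    have h2 := abs_sin_le_one (((m : ℝ) + 1) * (π / (2 * l)) * x.1)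
    have h3 := abs_sin_le_one (((n : ℝ) + 1) * (π / (2 * l)) * x.2)
    rw [hF]
    simp only
    rw [norm_mul, norm_mul, Real.norm_eq_abs (sin _), Real.norm_eq_abs (sin _)]
    calc _ ≤ |C R p.1| * |C R p.2| * (1 * 1) := by gcongr
      _ = |C R p.1| * |C R p.2| := by ring
  have hcont : ∀ p, Continuous (F p) := fun p => by
    rw [hF]
    unfold term
    fun_prop
  have hint : ∀ p, Integrable (F p) μ := fun p =>
    Integrable.of_bound (hcont p).aestronglyMeasurable _ (Eventually.of_forall (hb p))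
  have hsum : Summable (fun p => ∫ x, ‖F p x‖ ∂μ) := by
    refine Summable.of_nonneg_of_le (fun p => integral_nonneg fun x => norm_nonneg _) (fun p => ?_)
      ((summable_CC hR).mul_right (μ.real Set.univ))
    calc ∫ x, ‖F p x‖ ∂μ ≤ ∫ _, |C R p.1| * |C R p.2| ∂μ :=
          integral_mono (hint p).norm (integrable_const _) (hb p)
      _ = |C R p.1| * |C R p.2| * μ.real Set.univ := by
          rw [integral_const, smul_eq_mul, mul_comm]
  have h := hasSum_integral_of_summable_integral_norm hint hsum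
  have e1 : ∀ x, (∑' p, F p x) = U l R s x * (sin (((m : ℝ) + 1) * (π / (2 * l)) * x.1) *
        sin (((n : ℝ) + 1) * (π / (2 * l)) * x.2)) := fun x => by
    rw [U, ← tsum_mul_right]
  simp_rw [e1] at h
  have e2 : ∀ p : ℕ × ℕ, ∫ x, F p x ∂μ = if p = (m, n) then l ^ 2 * (C R m * C R n *
        cos (√(((m : ℝ) + 1) ^ 2 + ((n : ℝ) + 1) ^ 2) * (π / (2 * l) * s))) else 0 := fun p => by
    have e3 : ∀ x : ℝ × ℝ, F p x =
        (C R p.1 * C R p.2 * cos (√(((p.1 : ℝ) + 1) ^ 2 + ((p.2 : ℝ) + 1) ^ 2) * (π / (2 * l) * s))) *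
        ((sin (((p.1 : ℝ) + 1) * (π / (2 * l)) * x.1) * sin (((m : ℝ) + 1) * (π / (2 * l)) * x.1)) *
        (sin (((p.2 : ℝ) + 1) * (π / (2 * l)) * x.2) * sin (((n : ℝ) + 1) * (π / (2 * l)) * x.2))) :=
      fun x => by
        rw [hF]
        simp only [term]
        ring
    simp_rw [e3]
    rw [integral_const_mul, hμ, Measure.volume_eq_prod,
      setIntegral_prod_mul (fun y : ℝ => sin (((p.1 : ℝ) + 1) * (π / (2 * l)) * y) *
        sin (((m : ℝ) + 1) * (π / (2 * l)) * y)) (fun y : ℝ =>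
        sin (((p.2 : ℝ) + 1) * (π / (2 * l)) * y) * sin (((n : ℝ) + 1) * (π / (2 * l)) * y)),
      int_sin_sin hl, int_sin_sin hl]
    by_cases h1 : p = (m, n)
    · subst h1
      simp
      ring
    · rw [if_neg h1]
      by_cases h2 : p.1 = m
      · have h3 : p.2 ≠ n := fun h3 => h1 (Prod.ext h2 h3)
        rw [if_neg h3]
        ring
      · rw [if_neg h2]
        ring
  simp_rw [e2] at h
  exact h.unique (hasSum_ite_eq (m, n) _)

theorem summable_C_sq {R : ℝ} (hR : R < π) : Summable (fun m : ℕ => ((m : ℝ) + 1) ^ 2 * C R m ^ 2) := by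
  refine Summable.of_nonneg_of_le (fun _ => by positivity) (fun m => ?_)
    (summable_inv_sq.mul_left ((2 / (π - R)) ^ 2))
  have h := C_bound hR m
  have hp : 0 < π - R := by linarith
  have h2 : C R m ^ 2 ≤ (2 / (π - R) * (1 / ((m : ℝ) + 1) ^ 2)) ^ 2 := by
    rw [← sq_abs]
    gcongr
  calc ((m : ℝ) + 1) ^ 2 * C R m ^ 2 ≤ ((m : ℝ) + 1) ^ 2 * (2 / (π - R) * (1 / ((m : ℝ) + 1) ^ 2)) ^ 2 := by
        gcongr
    _ = (2 / (π - R)) ^ 2 * (1 / ((m : ℝ) + 1) ^ 2) := by
        field_simp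

theorem summable_C_sq' {R : ℝ} (hR : R < π) : Summable (fun m : ℕ => C R m ^ 2) := by
  refine Summable.of_nonneg_of_le (fun _ => by positivity) (fun m => ?_) (summable_C_sq hR)
  have : (1 : ℝ) ≤ ((m : ℝ) + 1) ^ 2 := by
    have : (0 : ℝ) ≤ m := by positivity
    nlinarith
  nlinarith [sq_nonneg (C R m)]

theorem energy {R : ℝ} (hR : R < π) :
    Summable (fun p : ℕ × ℕ => (((p.1 : ℝ) + 1) ^ 2 + ((p.2 : ℝ) + 1) ^ 2) *
      (C R p.1 * C R p.2) ^ 2) := by
  have h1 := Summable.mul_of_nonneg (summable_C_sq hR) (summable_C_sq' hR)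
    (fun _ => by positivity) (fun _ => by positivity)
  have h2 := Summable.mul_of_nonneg (summable_C_sq' hR) (summable_C_sq hR)
    (fun _ => by positivity) (fun _ => by positivity)
  refine (h1.add h2).congr (fun p => ?_)
  ring

end Pool.Agent.H129.MB
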