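import Mathlib
import Pool.Agent.H129.MB.Sol

set_option autoImplicit false

open MeasureTheory

namespace Pool.Agent.H129.MB

theorem two (l α T : ℝ) (hα : 0 < α) (hT : 0 < T)
    (h : T < 2 * (2 * l - α)) :
    ∃ a b : ℕ → ℕ → ℝ, ∃ F : ℝ → ℝ × ℝ → ℝ,
      Summable (fun p : ℕ × ℕ =>
        (((p.1 : ℝ) + 1) ^ 2 + ((p.2 : ℝ) + 1) ^ 2) * (a p.1 p.2 ^ 2 + b p.1 p.2 ^ 2)) ∧
      (∀ t : ℝ,
        MemLp (F t) 2 (volume.restrict (Set.Ioo (0 : ℝ) (2 * l) ×ˢ Set.Ioo (0 : ℝ) (2 * l))) ∧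
        ∀ m n : ℕ,
          ∫ x in Set.Ioo (0 : ℝ) (2 * l) ×ˢ Set.Ioo (0 : ℝ) (2 * l),
              F t x * Real.sin (((m : ℝ) + 1) * Real.pi * x.1 / (2 * l))
                * Real.sin (((n : ℝ) + 1) * Real.pi * x.2 / (2 * l))
            = l ^ 2 *
              (a m n * Real.cos (Real.pi / (2 * l)
                  * Real.sqrt (((m : ℝ) + 1) ^ 2 + ((n : ℝ) + 1) ^ 2) * t)
                + b m n * Real.sin (Real.pi / (2 * l)
                  * Real.sqrt (((m : ℝ) + 1) ^ 2 + ((n : ℝ) + 1) ^ 2) * t))) ∧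
      Continuous (fun p : ℝ × (ℝ × ℝ) => F p.1 p.2) ∧
      ∀ t ∈ Set.Icc (0 : ℝ) T, ∀ x ∈ Set.Icc (0 : ℝ) α ×ˢ Set.Icc (0 : ℝ) α,
        F t x = x.1 * x.2 := by
  have hpi := Real.pi_pos
  have hl : 0 < l := by linarith
  set κ := Real.pi / (2 * l) with hκ
  have hκ0 : 0 < κ := by positivity
  set R := κ * (α + T / 2) with hRdef
  have hR : R < Real.pi := by
    have h1 : κ * (2 * l) = Real.pi := by rw [hκ]; field_simp
    have h2 : R < κ * (2 * l) := by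
      rw [hRdef]
      exact mul_lt_mul_of_pos_left (by linarith) hκ0
    linarith
  refine ⟨fun m n => (1 / κ) ^ 2 * (C R m * C R n *
      Real.cos (κ * Real.sqrt (((m : ℝ) + 1) ^ 2 + ((n : ℝ) + 1) ^ 2) * (T / 2))),
    fun m n => (1 / κ) ^ 2 * (C R m * C R n *
      Real.sin (κ * Real.sqrt (((m : ℝ) + 1) ^ 2 + ((n : ℝ) + 1) ^ 2) * (T / 2))),
    fun t x => (1 / κ) ^ 2 * U l R (t - T / 2) x, ?_, ?_, ?_, ?_⟩
  · refine ((energy hR).mul_left ((1 / κ) ^ 4)).congr (fun p => ?_)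
    simp only
    have := Real.sin_sq_add_cos_sq
      (κ * Real.sqrt (((p.1 : ℝ) + 1) ^ 2 + ((p.2 : ℝ) + 1) ^ 2) * (T / 2))
    generalize Real.sin (κ * Real.sqrt (((p.1 : ℝ) + 1) ^ 2 + ((p.2 : ℝ) + 1) ^ 2) * (T / 2)) = s at *
    generalize Real.cos (κ * Real.sqrt (((p.1 : ℝ) + 1) ^ 2 + ((p.2 : ℝ) + 1) ^ 2) * (T / 2)) = c at *
    linear_combination (-(((p.1 : ℝ) + 1) ^ 2 + ((p.2 : ℝ) + 1) ^ 2) * (1 / κ) ^ 4 *
      (C R p.1 * C R p.2) ^ 2) * this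
  · intro t
    have hc : Continuous (fun x => U l R (t - T / 2) x) :=
      continuous_U_comp hR l continuous_const continuous_id
    refine ⟨?_, fun m n => ?_⟩
    · have hfin : IsFiniteMeasure ((volume : Measure (ℝ × ℝ)).restrict
          (Set.Ioo (0 : ℝ) (2 * l) ×ˢ Set.Ioo (0 : ℝ) (2 * l))) := by
        constructor
        rw [Measure.restrict_apply_univ, Measure.volume_eq_prod, Measure.prod_prod]
        simp [ENNReal.mul_lt_top]
      have hc2 : Continuous (fun x => (1 / κ) ^ 2 * U l R (t - T / 2) x) := continuous_const.mul hc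
      have hbd : ∀ x, ‖(1 / κ) ^ 2 * U l R (t - T / 2) x‖ ≤
          (1 / κ) ^ 2 * ∑' p : ℕ × ℕ, |C R p.1| * |C R p.2| := fun x => by
        rw [norm_mul, Real.norm_of_nonneg (by positivity : 0 ≤ (1 / κ) ^ 2)]
        exact mul_le_mul_of_nonneg_left (U_bound hR l _ x) (by positivity)
      exact MemLp.of_bound hc2.aestronglyMeasurable _ (Filter.Eventually.of_forall hbd)
    · have h1 := int_U hl hR (t - T / 2) m n
      have e : ∀ x : ℝ × ℝ, (1 / κ) ^ 2 * U l R (t - T / 2) x *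
          Real.sin (((m : ℝ) + 1) * Real.pi * x.1 / (2 * l)) *
          Real.sin (((n : ℝ) + 1) * Real.pi * x.2 / (2 * l)) = (1 / κ) ^ 2 *
          (U l R (t - T / 2) x * (Real.sin (((m : ℝ) + 1) * (Real.pi / (2 * l)) * x.1) *
        Real.sin (((n : ℝ) + 1) * (Real.pi / (2 * l)) * x.2))) := fun x => by
        rw [show ((m : ℝ) + 1) * Real.pi * x.1 / (2 * l) = ((m : ℝ) + 1) * (Real.pi / (2 * l)) * x.1 by
          ring, show ((n : ℝ) + 1) * Real.pi * x.2 / (2 * l) =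
            ((n : ℝ) + 1) * (Real.pi / (2 * l)) * x.2 by ring]
        ring
      simp_rw [e]
      rw [integral_const_mul, h1]
      rw [show Real.sqrt (((m : ℝ) + 1) ^ 2 + ((n : ℝ) + 1) ^ 2) * (Real.pi / (2 * l) * (t - T / 2)) =
        κ * Real.sqrt (((m : ℝ) + 1) ^ 2 + ((n : ℝ) + 1) ^ 2) * t -
        κ * Real.sqrt (((m : ℝ) + 1) ^ 2 + ((n : ℝ) + 1) ^ 2) * (T / 2) by rw [← hκ]; ring,
        Real.cos_sub]
      ring
  · exact continuous_const.mul (continuous_U_comp hR l (by fun_prop) continuous_snd)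
  · rintro t ⟨ht0, ht1⟩ x ⟨⟨hx1, hx1'⟩, ⟨hx2, hx2'⟩⟩
    have hb : ∀ y : ℝ, 0 ≤ y → y ≤ α → |κ * y| + |κ * (t - T / 2)| ≤ R := fun y hy0 hy => by
      rw [abs_mul, abs_mul, abs_of_pos hκ0, abs_of_nonneg hy0, ← mul_add, hRdef]
      refine mul_le_mul_of_nonneg_left ?_ hκ0.le
      have : |t - T / 2| ≤ T / 2 := abs_le.2 ⟨by linarith, by linarith⟩
      linarith
    have h1 := U_eq (l := l) (R := R) (s := t - T / 2) (x := x) hR (hb x.1 hx1 hx1') (hb x.2 hx2 hx2')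
    simp only
    rw [h1, ← hκ]
    field_simp

end Pool.Agent.H129.MB
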